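import Pool.Agent.W331.CR.All

/-!
# A finitely generated group of every finite regularity which is not smooth

Full (positive) answer to question Q1 of problem MP_84d7a8_al, for `M = I` and for `M = S^1`, with one
and the same group. The definitions `DiffI`, `DiffS` (and `ext01`, `IsLift`) are in
`Pool/Agent/W331/CR/Defs.lean`.
-/

set_option autoImplicit false

namespace Pool.Agent.Results.MP_84d7a8_al.FiniteNotSmooth

open Set Function
open scoped ContDiff
open Pool.Agent.W331.CR

/-- There is a finitely generated group which for every natural number `k` embeds into the group of
orientation preserving `C^k` diffeomorphisms of `[0,1]` and into that of the circle, but embeds neither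
into the group of orientation preserving smooth diffeomorphisms of `[0,1]` nor into that of the
circle. -/
theorem result : ∃ (G : Type) (_ : Group G), Group.FG G ∧
    (∀ k : ℕ, (∃ φ : G →* DiffI k, Injective φ) ∧ (∃ φ : G →* DiffS k, Injective φ)) ∧
    (¬ ∃ φ : G →* DiffI ∞, Injective φ) ∧ (¬ ∃ φ : G →* DiffS ∞, Injective φ) :=
  t_final84

end Pool.Agent.Results.MP_84d7a8_al.FiniteNotSmooth
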